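import Pool.Agent.Y331.EP.Trans
import Pool.Agent.TH289.L.P3

/-!
# MP_0a0487_an: Anosov diffeomorphisms with a factor of full entropy, in any dimension
-/

set_option autoImplicit false

open scoped Manifold ContDiff Topology
open Set Filter

namespace Pool.Agent.Results.MP_0a0487_an.EntropyFactorCovered

open Pool.Agent.H721R2 Pool.Agent.H789R2.AN Pool.Agent.TH289 Pool.Agent.TH289.K
open Pool.Agent.Y331.EP Pool.Agent.TH289.L

/-- **Universal covers of manifolds with an Anosov diffeomorphism that has an image of full entropy
in a system with global product structure of any dimension.**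
Let `f`, `g` be `C¹` Anosov diffeomorphisms of closed connected manifolds `M`, `M'` and let
`h : M → M'` be any continuous map with `h ∘ f = g ∘ h`. Suppose that `g` has global product
structure (`GPS`: each stable path and each unstable path with the same initial point span a
rectangle; for instance `g` is a hyperbolic automorphism of an infranilmanifold). Nothing is assumed
about the dimensions, `h` need not be onto, and no fibre of `h` is assumed to be finite, countable
or totally disconnected. Suppose that one of the following holds.
* `f` is topologically transitive and `h` loses no entropy: `h_top(f) ≤ h_top(g, h(M))`.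
* `h` takes different values at two different points that are both forward and backward asymptotic
  under `f`.
* There is a bound `B` such that, for every `x`, at most `B` points that are both forward and
  backward asymptotic to `x` have the same image as `x`.

Then there is a surjective covering map `E → M`, where `E ≅ ℝⁿ`, `n = dim M`. Moreover `f` is
topologically transitive and has global product structure, and there is a bound on the number of
points of the fibres of `h`. -/
theorem result (E : Type*) [NormedAddCommGroup E] [NormedSpace ℝ E] [FiniteDimensional ℝ E]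
    (M : Type*) [MetricSpace M] [CompactSpace M] [ConnectedSpace M]
    [ChartedSpace E M] [IsManifold 𝓘(ℝ, E) ∞ M] (f : Diffeomorph 𝓘(ℝ, E) 𝓘(ℝ, E) M M 1)
    (Es Eu : ∀ x : M, Submodule ℝ (TangentSpace 𝓘(ℝ, E) x)) (hf : IsAnosov f Es Eu)
    (E' : Type*) [NormedAddCommGroup E'] [NormedSpace ℝ E'] [FiniteDimensional ℝ E']
    (M' : Type*) [MetricSpace M'] [CompactSpace M'] [ConnectedSpace M']
    [ChartedSpace E' M'] [IsManifold 𝓘(ℝ, E') ∞ M'] (g : Diffeomorph 𝓘(ℝ, E') 𝓘(ℝ, E') M' M' 1)
    (Es' Eu' : ∀ x : M', Submodule ℝ (TangentSpace 𝓘(ℝ, E') x)) (hg : IsAnosov g Es' Eu')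
    (hG : GPS g.toHomeomorph) (h : C(M, M')) (hfg : ∀ x, h (f x) = g (h x))
    (hyp : (TopTransitive f ∧ Dynamics.coverEntropy f univ ≤ Dynamics.coverEntropy g (range h)) ∨
      (∀ x y, h x = h y → Asym f x y → Asym f.symm x y → x = y) ∨
      ∃ B : ℕ, ∀ x, {y | h y = h x ∧ Asym f x y ∧ Asym f.symm x y}.encard ≤ B) :
    (∃ π : E → M, IsCoveringMap π ∧ Function.Surjective π) ∧
      TopTransitive f ∧ GPS f.toHomeomorph ∧ ∃ N : ℕ, ∀ y, (h ⁻¹' {y}).encard ≤ N := by
  have T := man_trans f Es Eu hf g Es' Eu' hg hG h h.continuous hfg
  have h4 : ∀ y, (h ⁻¹' {y}).Countable := by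
    rcases hyp with h1 | h1 | h1
    · exact (T.out 0 3).1 h1
    · exact (T.out 1 3).1 h1
    · exact (T.out 2 3).1 h1
  have h5 := (T.out 3 4).1 h4
  have hL : Light f.toHomeomorph h ∨ Light f.toHomeomorph.symm h := by
    exact Or.inl (light_of_countable f.toHomeomorph h h4)
  obtain ⟨-, -, h3⟩ := man_light f Es Eu hf g Es' Eu' hg h h.continuous hfg hL hG
  exact ⟨h3, h5⟩

end Pool.Agent.Results.MP_0a0487_an.EntropyFactorCovered
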